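import Pool.Agent.Lib.MP_879916_ag.DgMain
import Pool.Agent.Lib.MP_879916_ag.DgExt2

/-! Diagonal equations over `F(t)` have points of degree prime to `l` as soon as the number of
variables exceeds `2 l ^ a`. -/

namespace Pool.Agent.Results.MP_879916_ag.DiagonalIndex

/-- `F` is any finite field of characteristic `> l^a (l^a - 1)`. The equation
`∑ c i * x i ^ d i = 0` over `F(t)` in `m ≥ 2 l^a + 1` variables, with `v_l (d i) ≤ a`, has a
non-zero solution over a finite extension of `F(t)` of degree prime to `l`. -/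
theorem result (F : Type) [Field F] [Fintype F] (l : ℕ) (hl : l.Prime) (a : ℕ)
    (hch : l ^ a * (l ^ a - 1) < ringChar F) (m : ℕ) (hm : 2 * l ^ a + 1 ≤ m)
    (d : Fin m → ℕ) (hd : ∀ i, 0 < d i) (hv : ∀ i, padicValNat l (d i) ≤ a)
    (c : Fin m → RatFunc F) :
    ∃ (L : Type) (_ : Field L) (_ : Algebra (RatFunc F) L), FiniteDimensional (RatFunc F) L ∧
      ¬ l ∣ Module.finrank (RatFunc F) L ∧
      ∃ x : Fin m → L, x ≠ 0 ∧ ∑ i, algebraMap (RatFunc F) L (c i) * x i ^ d i = 0 := by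
  obtain ⟨q₀, h⟩ := Pool.Agent.Lib.MP_879916_ag.Dg.iso_main (l ^ a) (pow_pos hl.pos a)
  exact Pool.Agent.Lib.MP_879916_ag.Dg.prime_to_l F l hl a q₀ h hch m hm d hd hv c

end Pool.Agent.Results.MP_879916_ag.DiagonalIndex
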