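import Pool.Agent.Lib.MP_879916_ag.Main

/-! Points of degree prime to `l` on weighted complete intersections over global function
fields. -/

namespace Pool.Agent.Results.MP_879916_ag.PrimeToLPoint

open scoped IntermediateField

/-- `K` is a global function field with field of constants `F`; the `f i` are weighted forms of
degree `d i`. If `∑ d i * l ^ v_l (d i) < ∑ w j * l ^ v_l (w j)` there is a non-trivial common
zero over a constant extension of degree prime to `l`. -/
theorem result (F K : Type) [Field F] [Finite F] [Field K] [Algebra F K] [Algebra (RatFunc F) K]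
    [IsScalarTower F (RatFunc F) K] [FunctionField F K]
    (hK : ∀ β : K, IsAlgebraic F β → β ∈ (algebraMap F K).range)
    (l : ℕ) (hl : l.Prime) (n c : ℕ) (w : Fin n → ℕ) (hw : ∀ j, 0 < w j)
    (d : Fin c → ℕ) (hd : ∀ i, 0 < d i) (f : Fin c → MvPolynomial (Fin n) K)
    (hf : ∀ i, (f i).IsWeightedHomogeneous w (d i))
    (hlt : ∑ i, d i * l ^ padicValNat l (d i) < ∑ j, w j * l ^ padicValNat l (w j)) :
    ∃ ζ : AlgebraicClosure K, IsAlgebraic F ζ ∧ FiniteDimensional K K⟮ζ⟯ ∧
      ¬ l ∣ Module.finrank K K⟮ζ⟯ ∧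
      ∃ x : Fin n → K⟮ζ⟯, x ≠ 0 ∧ ∀ i, MvPolynomial.aeval x (f i) = 0 :=
  Pool.Agent.PrimeToL.main F K (fun β h => hK β h.isAlgebraic) hl hw hd hf hlt

end Pool.Agent.Results.MP_879916_ag.PrimeToLPoint
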